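import Pool.Agent.V8H24.LI.C

/-!
# Three-term relations between the zeros of abelian Artin L-functions: fixed differences

Statement 1 of the question says that the positive ordinates of the critical zeros of all Artin
L-functions of a Galois extension of `ℚ` are linearly independent.  In particular there is no relation
`γ₂ = γ₁ + α` between ordinates `γ₁`, `γ₂` of zeros of two of the L-functions (or of one and the same)
and a fixed number `α` which is itself the ordinate of a zero, or a combination with rational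
coefficients of other ordinates.

Let `ψ₁`, `ψ₂` be fixed primitive Dirichlet characters of conductors `m₁`, `m₂` (they may be equal, or
trivial), let `α ≥ 0` be any fixed real number (`ψ₁ ≠ ψ₂` if `α = 0`), and let `χ` run over the
primitive characters of conductor `q` prime to `m₁ m₂`.  Then `χ ψ₁`, `χ ψ₂` and any further
fixed character `ψ₃` are characters of the Galois group of the field of the `q m`-th roots of
unity, `m` a multiple of the conductors; `α` may be a zero of `L(s, ψ₃)`.  The zeros of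
`L(s + i α, χ ψ₂)` are the zeros of `L(s, χ ψ₂)` with their ordinates diminished by `α`.

For `τ ≥ 0` let `h = (2 + τ) / (1 + τ)` and `c(h) = h/2 + cot(h/2)`.  Unconditionally, on average over
the `q` prime to `m₁ m₂` with `X < q ≤ Y` (`K X ≤ Y ≤ X ^ (1 + η)`, weight `q⁻²`) and the primitive
`χ` modulo `q`, and for the zeros of the two functions `L(s, χ ψ₁)` and `L(s + i α, χ ψ₂)` with
`T < Im s ≤ 2 T`, where `T` may be any number with `4 (log X)² ≤ T ≤ X ^ τ`: if `N` is the number of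
the zeros of the two functions together, counted with multiplicity, then at least `(2 - c(h) - ε) N`
zeros of one of them are simple, critical and not zeros of the other; at least
`(5 - 3 c(h) - ε)/2 N` of them have moreover an ordinate which no other zero of the two functions
has; the number of the distinct zeros of the two is at least `(3 - c(h) - ε)/2 N`; and the number of
the common zeros, even counted with the smaller of the two multiplicities, is at most
`(c(h) - 1 + ε)/2 N` (the trivial bound is `N/2`).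

`c` is decreasing on `(0, 2]`, `c(2) ≤ 1.6421` (`τ = 0`), `c(3/2) ≤ 1.827` (`τ = 1`) and
`c(19/15) ≤ 1.9975` (`τ = 2.75`), so that the first and the last statement are not trivial up to the
height `X ^ 2.75`.

Proof. The trace inequality for zeros (no hypothesis on zeros off the line) is applied to the product
`L(s, χ ψ₁) L(s + i α, χ ψ₂)`, a function with the analytic properties of an L-function of degree two
in the upper half plane and with the coefficients `χ(n) (ψ₁(n) + ψ₂(n) n ^ (-i α)) Λ(n)`.  The prime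
number theorem on the line `1 + i α` for the characters `ψ₁⁻¹ ψ₂` and Karamata's theorem show that
`∑ |ψ₁(n) + ψ₂(n) n ^ (-i α)|² Λ(n) / n` is asymptotic to `2 log x`.  The mean square of the
prime sums over the family and over the Gaussian window of length `T` is that of the starting library
(`Pool.Agent.N880.HP`, `Pool.Agent.N880.HE`, `Pool.Agent.W388.TW`).
-/

open Complex

namespace Pool.Agent.Results.MP_347b49_nt.FixedDifferences

/-- The Dirichlet L-function of a character modulo `q` (the value for `q = 0` is never used). -/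
noncomputable def Lfun (q : ℕ) (χ : DirichletCharacter ℂ q) : ℂ → ℂ :=
  if h : q = 0 then 0 else
    haveI : NeZero q := ⟨h⟩
    DirichletCharacter.LFunction χ

/-- The character `χ ψ` modulo `q m`. -/
noncomputable def twist {q m : ℕ} (χ : DirichletCharacter ℂ q) (ψ : DirichletCharacter ℂ m) :
    DirichletCharacter ℂ (q * m) :=
  DirichletCharacter.changeLevel (Nat.dvd_mul_right q m) χ *
    DirichletCharacter.changeLevel (Nat.dvd_mul_left m q) ψ

/-- The function `L(s, χ ψ)`. -/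
noncomputable def Ltw (q m : ℕ) (χ : DirichletCharacter ℂ q) (ψ : DirichletCharacter ℂ m) : ℂ → ℂ :=
  Lfun (q * m) (twist χ ψ)

/-- The function `F(s + i α)`. -/
noncomputable def shift (α : ℝ) (F : ℂ → ℂ) : ℂ → ℂ := fun s => F (s + I * α)

/-- The zeros of `F` in the open critical strip with ordinate in `(T, 2T]`. -/
def zeros (F : ℂ → ℂ) (T : ℝ) : Set ℂ :=
  {s : ℂ | 0 < s.re ∧ s.re < 1 ∧ T < s.im ∧ s.im ≤ 2 * T ∧ F s = 0}

/-- The number of these zeros, counted with multiplicity. -/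
noncomputable def N (F : ℂ → ℂ) (T : ℝ) : ℕ := ∑ᶠ s ∈ zeros F T, analyticOrderNatAt F s

/-- The zeros of `F` on the critical line which are simple and are not zeros of `G`. -/
def only (F G : ℂ → ℂ) (T : ℝ) : Set ℂ :=
  {s : ℂ | s ∈ zeros F T ∧ s.re = 1 / 2 ∧ analyticOrderNatAt F s = 1 ∧ G s ≠ 0}

/-- Those of them whose ordinate is not the ordinate of any other zero of `F` or `G`. -/
def alone (F G : ℂ → ℂ) (T : ℝ) : Set ℂ :=
  {s : ℂ | s ∈ only F G T ∧ ∀ s' ∈ zeros F T ∪ zeros G T, s'.im = s.im → s' = s}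

/-- The number of the common zeros of `F` and `G`, each counted with the smaller of the two
multiplicities. -/
noncomputable def common (F G : ℂ → ℂ) (T : ℝ) : ℕ :=
  ∑ᶠ s ∈ zeros F T ∩ zeros G T, min (analyticOrderNatAt F s) (analyticOrderNatAt G s)

/-- The primitive Dirichlet characters of conductor `q`. -/
def prim (q : ℕ) : Set (DirichletCharacter ℂ q) := {χ | χ.IsPrimitive}

/-- The sum of `f q χ / q²` over the `q` prime to `m` with `X < q ≤ Y` and the primitive characters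
`χ` modulo `q`. -/
noncomputable def fam (m X Y : ℕ) (f : (q : ℕ) → DirichletCharacter ℂ q → ℕ) : ℝ :=
  ∑ q ∈ (Finset.Ioc X Y).filter (fun q => Nat.Coprime q m),
    (1 / (q : ℝ) ^ 2) * ∑ᶠ χ ∈ prim q, (f q χ : ℝ)

/-- The constant `c(h) = h/2 + cot(h/2)`. -/
noncomputable def c (h : ℝ) : ℝ := h / 2 + Real.cot (h / 2)

lemma fam_eq (m X Y : ℕ) (f : (q : ℕ) → DirichletCharacter ℂ q → ℕ) :
    fam m X Y f = H385.primFamM m X Y (fun q χ => (f q χ : ℝ)) := by
  unfold fam H385.primFamM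
  refine Finset.sum_congr rfl fun q _ => ?_
  congr 1
  rw [← finsum_set_coe_eq_finsum_mem]
  rfl

/-- **Zeros of `L(s, χ ψ₁)` and `L(s, χ ψ₂)` whose ordinates differ by a fixed number `α`, on average
over `χ`, heights up to `X ^ τ`.** -/
theorem result :
    (∀ (m₁ m₂ : ℕ) (ψ₁ : DirichletCharacter ℂ m₁) (ψ₂ : DirichletCharacter ℂ m₂) (α : ℝ),
      1 ≤ m₁ → 1 ≤ m₂ → ψ₁ ∈ prim m₁ → ψ₂ ∈ prim m₂ → 0 ≤ α →
      (α ≠ 0 ∨ ∃ n : ℕ, Nat.Coprime n (m₁ * m₂) ∧ ψ₁ (n : ZMod m₁) ≠ ψ₂ (n : ZMod m₂)) →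
      ∀ τ ε : ℝ, 0 ≤ τ → 0 < ε →
      ∃ K η X₀ : ℝ, 1 ≤ K ∧ 0 < η ∧ 1 ≤ X₀ ∧
      ∀ (X Y : ℕ) (T : ℝ), X₀ ≤ X → K * X ≤ Y → (Y : ℝ) ≤ (X : ℝ) ^ (1 + η) →
      4 * (Real.log X) ^ 2 ≤ T → T ≤ (X : ℝ) ^ τ →
      0 < fam (m₁ * m₂) X Y (fun q χ => N (Ltw q m₁ χ ψ₁) T + N (shift α (Ltw q m₂ χ ψ₂)) T) ∧
      (∀ q : ℕ, X < q → Nat.Coprime q (m₁ * m₂) → ∀ χ ∈ prim q, (zeros (Ltw q m₁ χ ψ₁) T).Finite ∧
        (zeros (shift α (Ltw q m₂ χ ψ₂)) T).Finite) ∧
      (2 - c ((2 + τ) / (1 + τ)) - ε) *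
          fam (m₁ * m₂) X Y (fun q χ =>
            N (Ltw q m₁ χ ψ₁) T + N (shift α (Ltw q m₂ χ ψ₂)) T) ≤
        fam (m₁ * m₂) X Y (fun q χ =>
          (only (Ltw q m₁ χ ψ₁) (shift α (Ltw q m₂ χ ψ₂)) T).ncard +
          (only (shift α (Ltw q m₂ χ ψ₂)) (Ltw q m₁ χ ψ₁) T).ncard) ∧
      (5 - 3 * c ((2 + τ) / (1 + τ)) - ε) / 2 *
          fam (m₁ * m₂) X Y (fun q χ =>
            N (Ltw q m₁ χ ψ₁) T + N (shift α (Ltw q m₂ χ ψ₂)) T) ≤
        fam (m₁ * m₂) X Y (fun q χ =>
          (alone (Ltw q m₁ χ ψ₁) (shift α (Ltw q m₂ χ ψ₂)) T).ncard +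
          (alone (shift α (Ltw q m₂ χ ψ₂)) (Ltw q m₁ χ ψ₁) T).ncard) ∧
      (3 - c ((2 + τ) / (1 + τ)) - ε) / 2 *
          fam (m₁ * m₂) X Y (fun q χ =>
            N (Ltw q m₁ χ ψ₁) T + N (shift α (Ltw q m₂ χ ψ₂)) T) ≤
        fam (m₁ * m₂) X Y (fun q χ =>
          (zeros (Ltw q m₁ χ ψ₁) T ∪ zeros (shift α (Ltw q m₂ χ ψ₂)) T).ncard) ∧
      fam (m₁ * m₂) X Y (fun q χ =>
          common (Ltw q m₁ χ ψ₁) (shift α (Ltw q m₂ χ ψ₂)) T) ≤
        (c ((2 + τ) / (1 + τ)) - 1 + ε) / 2 *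
          fam (m₁ * m₂) X Y (fun q χ =>
            N (Ltw q m₁ χ ψ₁) T + N (shift α (Ltw q m₂ χ ψ₂)) T)) ∧
    (∀ a b : ℝ, 0 < a → a ≤ b → b ≤ 2 → c b ≤ c a) ∧
    c 2 ≤ 1.6421 ∧ c (3 / 2) ≤ 1.827 ∧ c (19 / 15) ≤ 1.9975 := by
  refine ⟨?_, Pool.Agent.N880.HP.c2_main.2⟩
  intro m₁ m₂ ψ₁ ψ₂ α hm₁ hm₂ hψ₁ hψ₂ hα hdiff τ ε hτ hε
  obtain ⟨K, η, X0, hK, hη, hX0, h⟩ := Pool.Agent.V8H24.LI.fin (by omega) (by omega) ψ₁ ψ₂ hψ₁ hψ₂
    α hα hdiff τ ε hτ hε
  refine ⟨K, η, X0, hK, hη, hX0, ?_⟩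
  intro X Y T hX hKX hY hT1 hT2
  obtain ⟨b0, bf, b1, b2, b3, b4⟩ := h X Y T hX hKX hY hT1 hT2
  rw [fam_eq, fam_eq, fam_eq, fam_eq, fam_eq]
  exact ⟨b0, fun q hq hc χ hχ => bf q hq hc χ hχ, b1, b2, b3, b4⟩

end Pool.Agent.Results.MP_347b49_nt.FixedDifferences
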