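import Pool.Agent.V8H32.NW.P2

/-!
# A positive proportion of non-vanishing among the twists by the characters of a given order

Let `q` be a prime, `d` a divisor of `q - 1` with `d ≥ q^(2/3+δ)` and `χ₀` any character modulo `q`.
A positive proportion (depending only on `δ` and `ε`) of the `φ(d)` characters `χ` modulo `q` of exact
order `d` satisfy `|L(1/2, χ₀χ)| ≥ q^(-ε)`. For `χ₀ = 1` the `χ` of order `d` are the faithful
characters of the cyclic field of conductor `q` and degree `d`; they form one Galois orbit.
(Summing over the divisors `d` of the order of a subgroup `H` one gets a positive proportion in every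
coset of every subgroup `H` of order `≥ q^(2/3+δ)`.)

Proof. For the cosets of the subgroups of order `≥ q^(2/3+δ/2)` the first two moments of
`L(1/2, χ) M(χ)` are computed asymptotically, with relative error `(log q)^(-1/20)`, for one mollifier
`M` which does not depend on the subgroup: the main term `∏_{p ≤ (log q)^200} (1 - χ(p)/√p)`, truncated
to products with few primes `> (log q)^(1/3)`, times a mollifier of length a small power of `q`
supported on integers without prime factors `≤ (log q)^200`. The second moment is written with the exact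
formula for `Γ(κ)² |L(1/2, χ)|²`; its main term does not depend on the coset. By inclusion and exclusion
over the primes `≤ c log q` dividing `d` (the density is `≥ c / (log log q)²`, so that the error terms
are affordable) one gets the moments over the `χ₀χ₁^j` with `j` prime to all these primes; the `j`
with a common factor with `d` larger than `c log q` are rare.
-/

set_option autoImplicit false

namespace Pool.Agent.Results.MP_347b49_nt.PositiveProportionGivenOrder
open Pool.Agent.V8H32.NW

/-- **Main theorem.** -/
theorem result : ∀ δ ε : ℝ, 0 < δ → 0 < ε → ∃ c : ℝ, 0 < c ∧ ∃ q₀ : ℕ,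
    ∀ (q : ℕ) [Fact q.Prime], q₀ ≤ q → ∀ d : ℕ, d ∣ q - 1 → (q : ℝ) ^ (2 / 3 + δ) ≤ d →
      ∀ χ₀ : DirichletCharacter ℂ q,
        c * Nat.totient d ≤ (Nat.card {χ : DirichletCharacter ℂ q // orderOf χ = d ∧ (q : ℝ) ^ (-ε) ≤
          ‖DirichletCharacter.LFunction (χ₀ * χ) (1 / 2)‖} : ℝ) := by
  classical
  intro δ ε hδ hε
  obtain ⟨c, hc, q₀, h⟩ := main_pow δ ε hδ hε
  refine ⟨c, hc, q₀, fun q _ hq d hd hdq χ₀ => ?_⟩
  have hq2 := (Fact.out : q.Prime).two_le
  have hd0 : d ≠ 0 := by
    rintro rfl
    have := Nat.eq_zero_of_zero_dvd hd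
    omega
  obtain ⟨χ, hχ⟩ := MulChar.exists_mulChar_orderOf (ZMod q) (n := d)
    (by rw [ZMod.card]; exact hd) (Complex.isPrimitiveRoot_exp d hd0)
  have h1 := h q hq χ χ₀ (by rw [hχ]; exact hdq)
  rw [hχ] at h1
  refine h1.trans ?_
  rw [Nat.cast_le, Nat.subtype_card (Finset.univ.filter (fun χ : DirichletCharacter ℂ q =>
    orderOf χ = d ∧ (q : ℝ) ^ (-ε) ≤ ‖DirichletCharacter.LFunction (χ₀ * χ) (1 / 2)‖)) (by simp)]
  apply Finset.card_le_card_of_injOn (fun j => χ ^ j)
  · intro j hj
    rw [Finset.mem_coe, Finset.mem_filter] at hj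
    have h2 := hj.1
    unfold CP at h2
    rw [Finset.mem_filter] at h2
    rw [Finset.mem_coe, Finset.mem_filter]
    refine ⟨Finset.mem_univ _, ?_, hj.2⟩
    rw [Nat.Coprime.orderOf_pow]
    · exact hχ
    · rw [hχ]; exact h2.2.symm
  · intro i hi j hj hij
    rw [Finset.mem_coe, Finset.mem_filter] at hi hj
    have h2 := hi.1
    have h3 := hj.1
    unfold CP at h2 h3
    rw [Finset.mem_filter, Finset.mem_range] at h2 h3
    exact pow_injOn_Iio_orderOf (by rw [hχ]; exact h2.1) (by rw [hχ]; exact h3.1) hij

end Pool.Agent.Results.MP_347b49_nt.PositiveProportionGivenOrder
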