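import Pool.Agent.V8H24.RT.Fin

/-!
# Three-term relations between the zeros of abelian Artin L-functions: fixed ratios

Statement 1 of the question says that the positive ordinates of the critical zeros of all Artin
L-functions of a Galois extension of `ℚ` are linearly independent.  In particular two of them have
no rational ratio `g ≠ 1`, and more generally there is no relation `γ₂ = g (γ₁ + α)` with a rational
number `g > 1` and a number `α` which is a combination with rational coefficients of other ordinates.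

Let `ψ₁`, `ψ₂` be fixed primitive Dirichlet characters of conductors `m₁`, `m₂` (they may be equal, or
trivial), let `g > 1` and `α` be any fixed real numbers (`α = 0` is allowed), and let `χ` run over
the primitive characters of conductor `q` prime to `m₁ m₂`.  Then `χ ψ₁`, `χ ψ₂` and any further
fixed character `ψ₃` are characters of the Galois group of the field of the `q m`-th roots of
unity, `m` a multiple of the conductors; `α` may be a combination of ordinates of `L(s, ψ₃)`.
The function `dil g α F` is `F(1/2 + g (s - 1/2 + i α))`; the number `1/2 + i γ₁` is a zero of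
`dil g α (L(s, χ ψ₂))` exactly when `1/2 + i γ₂`, `γ₂ = g (γ₁ + α)`, is a zero of `L(s, χ ψ₂)`.

The zeros of the two functions `L(s, χ ψ₁)` and `dil g α (L(s, χ ψ₂))` are considered in the window
`T < Im s ≤ T + H`, where `((1 + g) (2 + τ) log X)² ≤ H ≤ X ^ η` and `H + |α| ≤ T ≤ X ^ (τ + η)`;
the second function has asymptotically `g` times as many zeros there as the first.  The first part
of the theorem says, with `h = 4 / ((1 + τ)(1 + g))` and `c(h) = h/2 + cot(h/2)`, unconditionally and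
on average over the `q` prime to `m₁ m₂` with `X < q ≤ Y` (`K X ≤ Y ≤ X ^ (1 + η)`, weight `q⁻²`) and
the primitive `χ` modulo `q`: the number of the common zeros, even counted with the smaller of
the two multiplicities, is at most `(c(h) - 1)(1 + g)/2 + ε` times the number of the zeros of
`L(s, χ ψ₁)`; and, if `N` is the number of the zeros of the two functions together, counted with
multiplicity, then at least `(2 - c(h) - ε) N` zeros of one of them are simple, critical and not
zeros of the other.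

For `τ = 0` the first constant is `1 - (1 - cot(2/(1 + g)))(1 + g)/2`, which is smaller than `1`, the
trivial bound, for all `g < 8/π - 1 = 1.546...`; hence on average over the family a positive
proportion of the ordinates `γ₁` of `L(s, χ ψ₁)` are in no relation `γ₂ = g (γ₁ + α)` with an ordinate
`γ₂` of `L(s, χ ψ₂)`.

Proof. The trace inequality for zeros (no hypothesis on zeros off the line) is applied to the product
`L(s, χ ψ₁) L(1/2 + g (s - 1/2 + i α), χ ψ₂)`, a function with the analytic properties of an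
L-function of degree `1 + g` in the upper half plane; its logarithmic derivative is a Dirichlet
series with the frequencies `log n` and `g log n`.  The two prime sums are uncorrelated on average
over the family and over the Gaussian window, by the large sieve and the mean value theorem for
the second sum, whose frequencies belong to much smaller `n`.
-/

open Complex

namespace Pool.Agent.Results.MP_347b49_nt.RatiosOfOrdinates

/-- The Dirichlet L-function of a character modulo `q` (the value for `q = 0` is never used). -/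
noncomputable def Lfun (q : ℕ) (χ : DirichletCharacter ℂ q) : ℂ → ℂ :=
  if h : q = 0 then 0 else
    haveI : NeZero q := ⟨h⟩
    DirichletCharacter.LFunction χ

/-- The character `χ ψ` modulo `q m`. -/
noncomputable def twist {q m : ℕ} (χ : DirichletCharacter ℂ q) (ψ : DirichletCharacter ℂ m) :
    DirichletCharacter ℂ (q * m) :=
  DirichletCharacter.changeLevel (Nat.dvd_mul_right q m) χ *
    DirichletCharacter.changeLevel (Nat.dvd_mul_left m q) ψ

/-- The function `L(s, χ ψ)`. -/
noncomputable def Ltw (q m : ℕ) (χ : DirichletCharacter ℂ q) (ψ : DirichletCharacter ℂ m) : ℂ → ℂ :=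
  Lfun (q * m) (twist χ ψ)

/-- The function `F(1/2 + g (s - 1/2 + i α))`. -/
noncomputable def dil (g α : ℝ) (F : ℂ → ℂ) : ℂ → ℂ := fun s => F (1 / 2 + g * (s - 1 / 2 + I * α))

/-- The zeros of `F` in the open critical strip with ordinate in `(T, T + H]`. -/
def zeros (F : ℂ → ℂ) (T H : ℝ) : Set ℂ :=
  {s : ℂ | 0 < s.re ∧ s.re < 1 ∧ T < s.im ∧ s.im ≤ T + H ∧ F s = 0}

/-- The number of these zeros, counted with multiplicity. -/
noncomputable def N (F : ℂ → ℂ) (T H : ℝ) : ℕ := ∑ᶠ s ∈ zeros F T H, analyticOrderNatAt F s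

/-- The zeros of `F` on the critical line which are simple and are not zeros of `G`. -/
def only (F G : ℂ → ℂ) (T H : ℝ) : Set ℂ :=
  {s : ℂ | s ∈ zeros F T H ∧ s.re = 1 / 2 ∧ analyticOrderNatAt F s = 1 ∧ G s ≠ 0}

/-- The number of the common zeros of `F` and `G`, each counted with the smaller of the two
multiplicities. -/
noncomputable def common (F G : ℂ → ℂ) (T H : ℝ) : ℕ :=
  ∑ᶠ s ∈ zeros F T H ∩ zeros G T H, min (analyticOrderNatAt F s) (analyticOrderNatAt G s)

/-- The primitive Dirichlet characters of conductor `q`. -/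
def prim (q : ℕ) : Set (DirichletCharacter ℂ q) := {χ | χ.IsPrimitive}

/-- The sum of `f q χ / q²` over the `q` prime to `m` with `X < q ≤ Y` and the primitive characters
`χ` modulo `q`. -/
noncomputable def fam (m X Y : ℕ) (f : (q : ℕ) → DirichletCharacter ℂ q → ℕ) : ℝ :=
  ∑ q ∈ (Finset.Ioc X Y).filter (fun q => Nat.Coprime q m),
    (1 / (q : ℝ) ^ 2) * ∑ᶠ χ ∈ prim q, (f q χ : ℝ)

/-- The constant `c(h) = h/2 + cot(h/2)`. -/
noncomputable def c (h : ℝ) : ℝ := h / 2 + Real.cot (h / 2)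

lemma fam_eq (m X Y : ℕ) (f : (q : ℕ) → DirichletCharacter ℂ q → ℕ) :
    fam m X Y f = H385.primFamM m X Y (fun q χ => (f q χ : ℝ)) := by
  unfold fam H385.primFamM
  refine Finset.sum_congr rfl fun q _ => ?_
  congr 1
  rw [← finsum_set_coe_eq_finsum_mem]
  rfl

lemma cot_lt {x : ℝ} (h1 : Real.pi / 4 < x) (h2 : x < Real.pi / 2) : Real.cot x < 1 := by
  have hpi := Real.pi_pos
  have hs : 0 < Real.sin x := Real.sin_pos_of_pos_of_lt_pi (by linarith) (by linarith)
  rw [Real.cot_eq_cos_div_sin, div_lt_one hs]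
  have h3 : Real.cos x < Real.cos (Real.pi / 4) :=
    Real.cos_lt_cos_of_nonneg_of_le_pi (by linarith) (by linarith) h1
  have h4 : Real.sin (Real.pi / 4) < Real.sin x :=
    Real.sin_lt_sin_of_lt_of_le_pi_div_two (by linarith) h2.le h1
  rw [Real.cos_pi_div_four] at h3
  rw [Real.sin_pi_div_four] at h4
  linarith

lemma const_eq {g : ℝ} (hg : 1 < g) : (c (4 / (1 + g)) - 1) * (1 + g) / 2 =
    1 - (1 - Real.cot (2 / (1 + g))) * (1 + g) / 2 := by
  have h0 : (1 + g) ≠ 0 := by linarith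
  have e1 : 4 / (1 + g) / 2 = 2 / (1 + g) := by ring
  unfold c
  rw [e1]
  field_simp
  ring

lemma const_lt {g : ℝ} (hg : 1 < g) (hg2 : g < 8 / Real.pi - 1) :
    Real.cot (2 / (1 + g)) < 1 := by
  have hpi := Real.pi_gt_three
  have hp : 0 < Real.pi := by linarith
  have h0 : 0 < 1 + g := by linarith
  have h1 : (1 + g) * Real.pi < 8 := by
    rw [← lt_div_iff₀ hp]; linarith
  refine cot_lt ?_ ?_
  · rw [lt_div_iff₀ h0]; linarith
  · have : 2 / (1 + g) < 1 := by rw [div_lt_one h0]; linarith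
    linarith

/-- **Zeros of `L(s, χ ψ₁)` and `L(s, χ ψ₂)` whose ordinates satisfy `γ₂ = g (γ₁ + α)`, on average
over `χ`.** -/
theorem result :
    (∀ (m₁ m₂ : ℕ) (ψ₁ : DirichletCharacter ℂ m₁) (ψ₂ : DirichletCharacter ℂ m₂) (g α : ℝ),
      1 ≤ m₁ → 1 ≤ m₂ → ψ₁ ∈ prim m₁ → ψ₂ ∈ prim m₂ → 1 < g →
      ∀ τ ε : ℝ, 0 ≤ τ → 0 < ε →
      ∃ K η X₀ : ℝ, 1 ≤ K ∧ 0 < η ∧ 1 ≤ X₀ ∧
      ∀ (X Y : ℕ) (T H : ℝ), X₀ ≤ X → K * X ≤ Y → (Y : ℝ) ≤ (X : ℝ) ^ (1 + η) →
      ((1 + g) * (2 + τ) * Real.log X) ^ 2 ≤ H → H ≤ (X : ℝ) ^ η → H + |α| ≤ T →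
      T ≤ (X : ℝ) ^ (τ + η) →
      0 < fam (m₁ * m₂) X Y (fun q χ => N (Ltw q m₁ χ ψ₁) T H) ∧
      (∀ q : ℕ, X < q → q ≤ Y → Nat.Coprime q (m₁ * m₂) → ∀ χ ∈ prim q,
        (zeros (Ltw q m₁ χ ψ₁) T H).Finite ∧ (zeros (dil g α (Ltw q m₂ χ ψ₂)) T H).Finite ∧
        |(N (dil g α (Ltw q m₂ χ ψ₂)) T H : ℝ) - g * (N (Ltw q m₁ χ ψ₁) T H : ℝ)| ≤
          ε * (N (Ltw q m₁ χ ψ₁) T H : ℝ)) ∧
      fam (m₁ * m₂) X Y (fun q χ =>
          common (Ltw q m₁ χ ψ₁) (dil g α (Ltw q m₂ χ ψ₂)) T H) ≤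
        ((c (4 / ((1 + τ) * (1 + g))) - 1) * (1 + g) / 2 + ε) *
          fam (m₁ * m₂) X Y (fun q χ => N (Ltw q m₁ χ ψ₁) T H) ∧
      (2 - c (4 / ((1 + τ) * (1 + g))) - ε) *
          fam (m₁ * m₂) X Y (fun q χ =>
            N (Ltw q m₁ χ ψ₁) T H + N (dil g α (Ltw q m₂ χ ψ₂)) T H) ≤
        fam (m₁ * m₂) X Y (fun q χ =>
          (only (Ltw q m₁ χ ψ₁) (dil g α (Ltw q m₂ χ ψ₂)) T H).ncard +
          (only (dil g α (Ltw q m₂ χ ψ₂)) (Ltw q m₁ χ ψ₁) T H).ncard)) ∧
    (∀ g : ℝ, 1 < g → (c (4 / (1 + g)) - 1) * (1 + g) / 2 =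
      1 - (1 - Real.cot (2 / (1 + g))) * (1 + g) / 2) ∧
    (∀ g : ℝ, 1 < g → g < 8 / Real.pi - 1 → Real.cot (2 / (1 + g)) < 1) := by
  refine ⟨?_, fun g hg => const_eq hg, fun g hg hg2 => const_lt hg hg2⟩
  intro m₁ m₂ ψ₁ ψ₂ g α hm₁ hm₂ hψ₁ hψ₂ hg τ ε hτ hε
  obtain ⟨K, η, X0, hK, hη, hX0, h⟩ := Pool.Agent.V8H24.RT.fin (by omega) (by omega) ψ₁ ψ₂ hψ₁ hψ₂
    g α hg τ ε hτ hε
  refine ⟨K, η, X0, hK, hη, hX0, ?_⟩
  intro X Y T H hX hKX hY hH1 hH2 hT1 hT2
  obtain ⟨b0, bf, b1, b2⟩ := h X Y T H hX hKX hY hH1 hH2 hT1 hT2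
  rw [fam_eq, fam_eq, fam_eq, fam_eq]
  exact ⟨b0, fun q hq hq2 hc χ hχ => bf q hq hq2 hc χ hχ, b1, b2⟩

end Pool.Agent.Results.MP_347b49_nt.RatiosOfOrdinates
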