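import Pool.Agent.V8H35.NZ.Main

/-!
# Non-vanishing at `1/2` for the characters of abelian fields of degree below the square root of the conductor

Let `q` be a prime and `H` a subgroup of the group of the Dirichlet characters modulo `q`; so `H` is the group of the
irreducible characters of `Gal(K/ℚ)` for the cyclic field `K ⊆ ℚ(ζ_q)` of degree `#H`.

**Theorem.** Let `β > 5/11` and `ε > 0`. For *all* large primes `q` and *all* `H` with `#H ≥ q^β`, at least
`q^(-1/3-ε) (#H)^(4/3)` of the nontrivial `χ ∈ H` satisfy `|L(1/2, χ)| ≥ 1/4`. In particular, if `d` is a prime number,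
`d ∣ q - 1` and `d ≥ q^β`, then at least `q^(-1/3-ε) d^(4/3)` of the characters of exact order `d` do.

The starting file `ThinSubgroups` of this problem has `#H ≥ q^(2/3+δ)`. The range `5/11 < β ≤ 1/2`, in which the degree of
`K` is smaller than the square root of the conductor, is not reached by the first moment with a trivial error term.

The first moment `(1/#H) ∑_{χ ∈ H} L(1/2, χ) = ∑_{k ∈ K} q^(-1/2) ζ(1/2, k/q)`, where `K ≤ (ℤ/q)ˣ` is the annihilator of
`H`, is at least `3/8`: the terms with small `k` are positive, the term of `k = 1` is at least `1/2`, and the other `k` are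
equidistributed, with the bound `q^(1/4) (#K)^(3/8)` of Heath-Brown and Konyagin for the exponential sums over `K`
(`Pool.Agent.V8H35.HB`, Stepanov's method for several cosets). The fourth moment
`∑_{χ ≠ 1} |L(1/2, χ)|^4 ≤ C q^(1+ε)` (`Pool.Agent.V8H35.NZ.fourth`, from the approximate functional equation of the
starting files) and Hölder's inequality give the number of the `χ`.
-/

set_option autoImplicit false

namespace Pool.Agent.Results.MP_347b49_nt.SmallDegreeFields

open Finset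
open scoped Classical

/-- the characters of a prime order `d ∣ q - 1` and the trivial character -/
theorem exists_sub {q d : ℕ} [Fact q.Prime] (hd : d.Prime) (hdq : d ∣ q - 1) :
    ∃ H : Subgroup (DirichletCharacter ℂ q), Fintype.card H = d ∧
      ∀ χ ∈ H, χ ≠ 1 → orderOf χ = d := by
  have hqp : q.Prime := Fact.out
  have : NeZero q := ⟨hqp.pos.ne'⟩
  have hζ : IsPrimitiveRoot (Complex.exp (2 * Real.pi * Complex.I / d)) d :=
    Complex.isPrimitiveRoot_exp d hd.ne_zero
  have h1 : d ∣ Fintype.card (ZMod q) - 1 := by rwa [ZMod.card]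
  obtain ⟨χ, hχ⟩ := MulChar.exists_mulChar_orderOf (ZMod q) h1 hζ
  refine ⟨Subgroup.zpowers χ, ?_, ?_⟩
  · rw [Fintype.card_zpowers]
    exact hχ
  · intro ψ hψ hne
    have h2 : orderOf ψ ∣ d := by
      rw [← hχ]
      exact orderOf_dvd_of_mem_zpowers hψ
    rcases (Nat.dvd_prime hd).1 h2 with h3 | h3
    · exact absurd (orderOf_eq_one_iff.1 h3) hne
    · exact h3

/-- **Non-vanishing central values for abelian fields of degree at least `q^β`, `β > 5/11`.** -/
theorem result : ∀ β ε : ℝ, 5 / 11 < β → 0 < ε → ∃ q₀ : ℕ, ∀ (q : ℕ) [NeZero q], q₀ ≤ q → q.Prime →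
    (∀ H : Subgroup (DirichletCharacter ℂ q), (q : ℝ) ^ β ≤ (Nat.card H : ℝ) →
      (q : ℝ) ^ (-(1 / 3 : ℝ) - ε) * (Nat.card H : ℝ) ^ (4 / 3 : ℝ) ≤
        ({χ : DirichletCharacter ℂ q | χ ∈ H ∧ χ ≠ 1 ∧
          1 / 4 ≤ ‖DirichletCharacter.LFunction χ (1 / 2)‖}.ncard : ℝ)) ∧
    (∀ d : ℕ, d.Prime → d ∣ q - 1 → (q : ℝ) ^ β ≤ d →
      (q : ℝ) ^ (-(1 / 3 : ℝ) - ε) * (d : ℝ) ^ (4 / 3 : ℝ) ≤
        ({χ : DirichletCharacter ℂ q | orderOf χ = d ∧
          1 / 4 ≤ ‖DirichletCharacter.LFunction χ (1 / 2)‖}.ncard : ℝ)) := by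
  intro β ε hβ hε
  obtain ⟨q₀, h⟩ := Pool.Agent.V8H35.NZ.main hβ hε
  refine ⟨q₀, fun q _ hqq hq => ?_⟩
  have : Fact q.Prime := ⟨hq⟩
  have key : ∀ H : Subgroup (DirichletCharacter ℂ q), (q : ℝ) ^ β ≤ (Nat.card H : ℝ) →
      (q : ℝ) ^ (-(1 / 3 : ℝ) - ε) * (Nat.card H : ℝ) ^ (4 / 3 : ℝ) ≤
        ({χ : DirichletCharacter ℂ q | χ ∈ H ∧ χ ≠ 1 ∧
          1 / 4 ≤ ‖DirichletCharacter.LFunction χ (1 / 2)‖}.ncard : ℝ) := by
    intro H hH
    rw [Nat.card_eq_fintype_card] at hH ⊢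
    have h1 := h q hqq H hH
    have h2 : {χ : DirichletCharacter ℂ q | χ ∈ H ∧ χ ≠ 1 ∧
          1 / 4 ≤ ‖DirichletCharacter.LFunction χ (1 / 2)‖} =
        ((univ.filter (fun χ : DirichletCharacter ℂ q => χ ∈ H ∧ χ ≠ 1 ∧
          1 / 4 ≤ ‖DirichletCharacter.LFunction χ (1 / 2)‖) : Finset (DirichletCharacter ℂ q)) :
            Set (DirichletCharacter ℂ q)) := by
      ext χ
      simp
    rw [h2, Set.ncard_coe_finset]
    exact h1
  refine ⟨key, fun d hd hdq hdβ => ?_⟩
  obtain ⟨H, hH1, hH2⟩ := exists_sub hd hdq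
  have h3 := key H (by rw [Nat.card_eq_fintype_card, hH1]; exact hdβ)
  rw [Nat.card_eq_fintype_card, hH1] at h3
  refine h3.trans ?_
  have h4 : {χ : DirichletCharacter ℂ q | χ ∈ H ∧ χ ≠ 1 ∧
          1 / 4 ≤ ‖DirichletCharacter.LFunction χ (1 / 2)‖} ⊆
      {χ : DirichletCharacter ℂ q | orderOf χ = d ∧
          1 / 4 ≤ ‖DirichletCharacter.LFunction χ (1 / 2)‖} := by
    rintro χ ⟨h5, h6, h7⟩
    exact ⟨hH2 χ h5 h6, h7⟩
  exact_mod_cast Set.ncard_le_ncard h4 (Set.toFinite _)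

end Pool.Agent.Results.MP_347b49_nt.SmallDegreeFields
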